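import Mathlib

set_option autoImplicit false

open Set Filter Topology
open scoped BoundedContinuousFunction Uniformity

namespace Pool.Agent.Results.MP_18d2fb_an.NeumannDiverges

/-- Spaces of type `(B₀)`, i.e. Fréchet spaces: Hausdorff complete topological vector spaces whose
topology is given by seminorms and is metrizable (countably generated uniformity). -/
structure IsFrechetSpace (𝕜 E : Type) [RCLike 𝕜] [AddCommGroup E] [Module 𝕜 E] [UniformSpace E] :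
    Prop where
  isUniformAddGroup : IsUniformAddGroup E
  continuousSMul : ContinuousSMul 𝕜 E
  t2 : T2Space E
  complete : CompleteSpace E
  countable : (𝓤 E).IsCountablyGenerated
  polynormable : PolynormableSpace 𝕜 E

/-- The Neumann series `∑ μᵏ Uᵏ x` converges in `E` to `s`. -/
def NeumannConvergesTo {𝕜 E : Type} [RCLike 𝕜] [AddCommGroup E] [Module 𝕜 E] [UniformSpace E]
    (U : E →L[𝕜] E) (μ : 𝕜) (x s : E) : Prop :=
  Tendsto (fun N : ℕ => ∑ k ∈ Finset.range N, μ ^ k • (U^[k]) x) atTop (𝓝 s)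

/-- the weights -/
noncomputable def w (j : ℕ) (n : ℤ) : ℝ := if n ≤ j then ((j : ℝ) + 1) ^ ((j : ℤ) - n).toNat else 0

lemma w_nonneg (j : ℕ) (n : ℤ) : 0 ≤ w j n := by
  unfold w; split_ifs <;> positivity

lemma w_pos {j : ℕ} {n : ℤ} (h : n ≤ j) : 0 < w j n := by
  unfold w; rw [if_pos h]; positivity

lemma w_self_pos (n : ℤ) : 0 < w n.natAbs n := w_pos (by omega)

lemma w_succ (j : ℕ) (n : ℤ) : w j n ≤ w (j + 1) (n + 1) := by
  unfold w
  split_ifs with h h' h'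
  · have e : (((j + 1 : ℕ) : ℤ) - (n + 1)).toNat = ((j : ℤ) - n).toNat := by omega
    rw [e]
    push_cast
    gcongr
    linarith
  · exfalso; push_cast at h'; omega
  · positivity
  · exact le_rfl

variable (𝕜 : Type) [RCLike 𝕜]

/-- ambient space: a countable product of Banach spaces -/
abbrev Amb : Type := ℕ → (ℤ →ᵇ 𝕜)

variable {𝕜}

/-- the coordinates -/
noncomputable def co (y : Amb 𝕜) (n : ℤ) : 𝕜 := (w n.natAbs n : 𝕜)⁻¹ * y n.natAbs n

lemma continuous_eval (j : ℕ) (n : ℤ) : Continuous fun y : Amb 𝕜 => y j n :=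
  (BoundedContinuousFunction.lipschitz_eval_const n).continuous.comp (continuous_apply j)

lemma continuous_co (n : ℤ) : Continuous fun y : Amb 𝕜 => co y n :=
  continuous_const.mul (continuous_eval _ _)

variable (𝕜)

/-- the space: a closed subspace of the product -/
noncomputable def EE : Submodule 𝕜 (Amb 𝕜) where
  carrier := {y | ∀ j n, y j n = (w j n : 𝕜) * co y n}
  add_mem' := by
    intro x y hx hy j n
    have h1 : (x + y) j n = x j n + y j n := rfl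
    have h2 : co (x + y) n = co x n + co y n := by
      unfold co
      have : (x + y) n.natAbs n = x n.natAbs n + y n.natAbs n := rfl
      rw [this, mul_add]
    rw [h1, h2, mul_add, hx, hy]
  zero_mem' := by
    intro j n
    have h1 : (0 : Amb 𝕜) j n = 0 := rfl
    have h2 : co (0 : Amb 𝕜) n = 0 := by
      unfold co
      have : (0 : Amb 𝕜) n.natAbs n = 0 := rfl
      rw [this, mul_zero]
    rw [h1, h2, mul_zero]
  smul_mem' := by
    intro c x hx j n
    have h1 : (c • x) j n = c * x j n := rfl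
    have h2 : co (c • x) n = c * co x n := by
      unfold co
      have : (c • x) n.natAbs n = c * x n.natAbs n := rfl
      rw [this]; ring
    rw [h1, h2, hx]; ring

lemma isClosed_EE : IsClosed (EE 𝕜 : Set (Amb 𝕜)) := by
  have : (EE 𝕜 : Set (Amb 𝕜)) = ⋂ j, ⋂ n, {y | y j n = (w j n : 𝕜) * co y n} := by
    ext y
    simp only [mem_iInter]
    rfl
  rw [this]
  exact isClosed_iInter fun j => isClosed_iInter fun n =>
    isClosed_eq (continuous_eval j n) (continuous_const.mul (continuous_co n))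

lemma isFrechet : IsFrechetSpace 𝕜 (EE 𝕜) where
  isUniformAddGroup := (EE 𝕜).toAddSubgroup.isUniformAddGroup
  continuousSMul := inferInstance
  t2 := inferInstance
  complete := (isClosed_EE 𝕜).completeSpace_coe
  countable := by
    rw [uniformity_subtype]
    infer_instance
  polynormable := inferInstance

variable {𝕜}

/-- coordinates of elements of the space -/
lemma apply_EE (x : EE 𝕜) (j : ℕ) (n : ℤ) : (x : Amb 𝕜) j n = (w j n : 𝕜) * co x n := x.2 j n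

lemma ext_EE {x y : EE 𝕜} (h : ∀ n, co (x : Amb 𝕜) n = co (y : Amb 𝕜) n) : x = y := by
  apply Subtype.ext
  funext j
  ext n
  rw [apply_EE, apply_EE, h]

lemma norm_w (j : ℕ) (n : ℤ) : ‖(w j n : 𝕜)‖ = w j n := by
  rw [RCLike.norm_ofReal, abs_of_nonneg (w_nonneg j n)]

lemma co_bound (x : EE 𝕜) (j : ℕ) (n : ℤ) : w j n * ‖co (x : Amb 𝕜) n‖ ≤ ‖(x : Amb 𝕜) j‖ := by
  have h1 := ((x : Amb 𝕜) j).norm_coe_le_norm n
  rwa [apply_EE, norm_mul, norm_w] at h1

lemma exists_mk (c : ℤ → 𝕜) (h : ∀ j, ∃ C, ∀ n, w j n * ‖c n‖ ≤ C) :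
    ∃ x : EE 𝕜, ∀ n, co (x : Amb 𝕜) n = c n := by
  choose C hC using h
  have hb : ∀ j n, ‖(w j n : 𝕜) * c n‖ ≤ C j := fun j n => by
    rw [norm_mul, norm_w]; exact hC j n
  set y : Amb 𝕜 := fun j =>
    BoundedContinuousFunction.ofNormedAddCommGroupDiscrete (fun n => (w j n : 𝕜) * c n) (C j) (hb j)
    with hy
  have hyj : ∀ j n, y j n = (w j n : 𝕜) * c n := fun j n => rfl
  have hco : ∀ n, co y n = c n := by
    intro n
    unfold co
    rw [hyj, ← mul_assoc, inv_mul_cancel₀, one_mul]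
    exact_mod_cast (w_self_pos n).ne'
  exact ⟨⟨y, fun j n => by rw [hyj, hco]⟩, hco⟩

/-- the components of the backward shift -/
noncomputable def L (j : ℕ) : (ℤ →ᵇ 𝕜) →L[𝕜] (ℤ →ᵇ 𝕜) :=
  LinearMap.mkContinuous
    { toFun := fun g => BoundedContinuousFunction.ofNormedAddCommGroupDiscrete
        (fun n => ((w j n / w (j + 1) (n + 1) : ℝ) : 𝕜) * g (n + 1)) ‖g‖ (fun n => by
          rw [norm_mul, RCLike.norm_ofReal]
          have h1 : |w j n / w (j + 1) (n + 1)| ≤ 1 := by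
            rw [abs_of_nonneg (div_nonneg (w_nonneg _ _) (w_nonneg _ _))]
            exact div_le_one_of_le₀ (w_succ j n) (w_nonneg _ _)
          calc |w j n / w (j + 1) (n + 1)| * ‖g (n + 1)‖ ≤ 1 * ‖g‖ :=
                mul_le_mul h1 (g.norm_coe_le_norm _) (norm_nonneg _) zero_le_one
            _ = ‖g‖ := one_mul _)
      map_add' := fun g h => by
        ext n
        simp [mul_add]
      map_smul' := fun c g => by
        ext n
        simp only [BoundedContinuousFunction.coe_ofNormedAddCommGroupDiscrete,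
          BoundedContinuousFunction.coe_smul, smul_eq_mul, RingHom.id_apply]
        ring } 1 (fun g => by
    rw [one_mul]
    refine (BoundedContinuousFunction.norm_le (norm_nonneg g)).2 fun n => ?_
    simp only [LinearMap.coe_mk, AddHom.coe_mk,
      BoundedContinuousFunction.coe_ofNormedAddCommGroupDiscrete]
    rw [norm_mul, RCLike.norm_ofReal]
    have h1 : |w j n / w (j + 1) (n + 1)| ≤ 1 := by
      rw [abs_of_nonneg (div_nonneg (w_nonneg _ _) (w_nonneg _ _))]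
      exact div_le_one_of_le₀ (w_succ j n) (w_nonneg _ _)
    calc |w j n / w (j + 1) (n + 1)| * ‖g (n + 1)‖ ≤ 1 * ‖g‖ :=
          mul_le_mul h1 (g.norm_coe_le_norm _) (norm_nonneg _) zero_le_one
      _ = ‖g‖ := one_mul _)

lemma L_apply (j : ℕ) (g : ℤ →ᵇ 𝕜) (n : ℤ) :
    L j g n = ((w j n / w (j + 1) (n + 1) : ℝ) : 𝕜) * g (n + 1) := rfl

/-- the backward shift on the product -/
noncomputable def UA : Amb 𝕜 →L[𝕜] Amb 𝕜 :=
  ContinuousLinearMap.pi fun j => (L j).comp (ContinuousLinearMap.proj (j + 1))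

lemma UA_apply (y : Amb 𝕜) (j : ℕ) (n : ℤ) :
    UA y j n = ((w j n / w (j + 1) (n + 1) : ℝ) : 𝕜) * y (j + 1) (n + 1) := rfl

lemma w_div (j : ℕ) (n : ℤ) : w j n / w (j + 1) (n + 1) * w (j + 1) (n + 1) = w j n := by
  rcases eq_or_ne (w (j + 1) (n + 1)) 0 with h | h
  · have := w_succ j n
    rw [h] at this
    rw [h, mul_zero]
    exact (le_antisymm this (w_nonneg _ _)).symm
  · exact div_mul_cancel₀ _ h

lemma UA_mem_aux (x : EE 𝕜) (j : ℕ) (n : ℤ) :
    UA (x : Amb 𝕜) j n = (w j n : 𝕜) * co (x : Amb 𝕜) (n + 1) := by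
  rw [UA_apply, apply_EE, ← mul_assoc, ← RCLike.ofReal_mul, w_div]

lemma co_UA (x : EE 𝕜) (n : ℤ) : co (UA (x : Amb 𝕜)) n = co (x : Amb 𝕜) (n + 1) := by
  have h1 : co (UA (x : Amb 𝕜)) n = (w n.natAbs n : 𝕜)⁻¹ * UA (x : Amb 𝕜) n.natAbs n := rfl
  rw [h1, UA_mem_aux, ← mul_assoc, inv_mul_cancel₀, one_mul]
  exact_mod_cast (w_self_pos n).ne'

/-- the backward shift -/
noncomputable def U : EE 𝕜 →L[𝕜] EE 𝕜 :=
  (UA.comp (EE 𝕜).subtypeL).codRestrict (EE 𝕜) (fun x j n => by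
    show UA (x : Amb 𝕜) j n = (w j n : 𝕜) * co (UA (x : Amb 𝕜)) n
    rw [UA_mem_aux, co_UA])

lemma co_U (x : EE 𝕜) (n : ℤ) : co (U x : Amb 𝕜) n = co (x : Amb 𝕜) (n + 1) := co_UA x n

lemma co_add (x y : EE 𝕜) (n : ℤ) :
    co ((x + y : EE 𝕜) : Amb 𝕜) n = co (x : Amb 𝕜) n + co (y : Amb 𝕜) n := by
  show (w n.natAbs n : 𝕜)⁻¹ * ((x : Amb 𝕜) n.natAbs n + (y : Amb 𝕜) n.natAbs n) = _
  rw [mul_add]; rfl

lemma co_sub (x y : EE 𝕜) (n : ℤ) :
    co ((x - y : EE 𝕜) : Amb 𝕜) n = co (x : Amb 𝕜) n - co (y : Amb 𝕜) n := by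
  show (w n.natAbs n : 𝕜)⁻¹ * ((x : Amb 𝕜) n.natAbs n - (y : Amb 𝕜) n.natAbs n) = _
  rw [mul_sub]; rfl

lemma co_smul (c : 𝕜) (x : EE 𝕜) (n : ℤ) :
    co ((c • x : EE 𝕜) : Amb 𝕜) n = c * co (x : Amb 𝕜) n := by
  show (w n.natAbs n : 𝕜)⁻¹ * (c * (x : Amb 𝕜) n.natAbs n) = _
  rw [mul_left_comm]; rfl

lemma co_zero (n : ℤ) : co ((0 : EE 𝕜) : Amb 𝕜) n = 0 := by
  show (w n.natAbs n : 𝕜)⁻¹ * 0 = 0
  rw [mul_zero]

lemma co_sum {ι : Type} (s : Finset ι) (f : ι → EE 𝕜) (n : ℤ) :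
    co ((∑ i ∈ s, f i : EE 𝕜) : Amb 𝕜) n = ∑ i ∈ s, co (f i : Amb 𝕜) n := by
  classical
  induction s using Finset.induction_on with
  | empty => simpa using co_zero n
  | insert a s ha ih => rw [Finset.sum_insert ha, Finset.sum_insert ha, co_add, ih]

lemma co_iterate (x : EE 𝕜) (k : ℕ) (n : ℤ) :
    co ((U^[k]) x : Amb 𝕜) n = co (x : Amb 𝕜) (n + k) := by
  induction k generalizing n with
  | zero => simp
  | succ k ih =>
    rw [Function.iterate_succ_apply', co_U, ih]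
    congr 1
    push_cast
    ring

/-- decay of the coordinates at `-∞` -/
lemma w_ratio {j j' : ℕ} (h : j ≤ j') {n : ℤ} (hn : n ≤ j) (k : ℕ) :
    w j n * ((j' : ℝ) + 1) ^ (k + 1) ≤ w j' (n - (k + 1)) := by
  unfold w
  rw [if_pos hn, if_pos (by omega)]
  have e : ((j' : ℤ) - (n - (k + 1))).toNat = ((j' : ℤ) - n).toNat + (k + 1) := by omega
  rw [e, pow_add ((j' : ℝ) + 1) (((j' : ℤ) - n).toNat) (k + 1)]
  apply mul_le_mul_of_nonneg_right _ (by positivity)
  have h1 : ((j : ℝ) + 1) ≤ (j' : ℝ) + 1 := by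
    have : (j : ℝ) ≤ j' := by exact_mod_cast h
    linarith
  calc ((j : ℝ) + 1) ^ ((j : ℤ) - n).toNat ≤ ((j' : ℝ) + 1) ^ ((j : ℤ) - n).toNat :=
        pow_le_pow_left₀ (by positivity) h1 _
    _ ≤ ((j' : ℝ) + 1) ^ ((j' : ℤ) - n).toNat := by
        apply pow_le_pow_right₀
        · have : (0:ℝ) ≤ j' := by positivity
          linarith
        · omega

lemma co_decay (x : EE 𝕜) {j j' : ℕ} (h : j ≤ j') {n : ℤ} (hn : n ≤ j) (k : ℕ) :
    w j n * (((j' : ℝ) + 1) ^ (k + 1) * ‖co (x : Amb 𝕜) (n - (k + 1))‖) ≤ ‖(x : Amb 𝕜) j'‖ := by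
  rw [← mul_assoc]
  exact (mul_le_mul_of_nonneg_right (w_ratio h hn k) (norm_nonneg _)).trans (co_bound x j' _)


/-- a good index -/
lemma exists_index (μ : 𝕜) (hμ : μ ≠ 0) (j : ℕ) : ∃ j' : ℕ, j ≤ j' ∧ 2 ≤ ‖μ‖ * ((j' : ℝ) + 1) := by
  obtain ⟨m, hm⟩ := exists_nat_ge (2 / ‖μ‖)
  have hμ' : 0 < ‖μ‖ := norm_pos_iff.2 hμ
  refine ⟨max j m, le_max_left _ _, ?_⟩
  have h1 : (m : ℝ) ≤ ((max j m : ℕ) : ℝ) := by exact_mod_cast le_max_right j m
  rw [div_le_iff₀ hμ'] at hm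
  nlinarith

lemma term_bound (μ : 𝕜) (hμ : μ ≠ 0) (x : EE 𝕜) {j j' : ℕ} (h : j ≤ j')
    (h2 : 2 ≤ ‖μ‖ * ((j' : ℝ) + 1)) {n : ℤ} (hn : n ≤ j) (k : ℕ) :
    w j n * ‖(μ⁻¹) ^ (k + 1) * co (x : Amb 𝕜) (n - (k + 1))‖ ≤
      ‖(x : Amb 𝕜) j'‖ * (1 / 2) ^ (k + 1) := by
  have hμ' : 0 < ‖μ‖ := norm_pos_iff.2 hμ
  have h3 := co_decay x h hn k
  have h5 : ‖μ‖⁻¹ ≤ (1 / 2) * ((j' : ℝ) + 1) := by
    rw [inv_le_iff_one_le_mul₀ hμ']
    linarith
  have h4 : ‖μ‖⁻¹ ^ (k + 1) ≤ (1 / 2) ^ (k + 1) * ((j' : ℝ) + 1) ^ (k + 1) := by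
    rw [← mul_pow]
    exact pow_le_pow_left₀ (by positivity) h5 _
  rw [norm_mul, norm_pow, norm_inv]
  calc w j n * (‖μ‖⁻¹ ^ (k + 1) * ‖co (x : Amb 𝕜) (n - (k + 1))‖)
      ≤ w j n * ((1 / 2) ^ (k + 1) * ((j' : ℝ) + 1) ^ (k + 1) * ‖co (x : Amb 𝕜) (n - (k + 1))‖) := by
        apply mul_le_mul_of_nonneg_left _ (w_nonneg _ _)
        exact mul_le_mul_of_nonneg_right h4 (norm_nonneg _)
    _ = (1 / 2) ^ (k + 1) * (w j n * (((j' : ℝ) + 1) ^ (k + 1) * ‖co (x : Amb 𝕜) (n - (k + 1))‖)) := by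
        ring
    _ ≤ (1 / 2) ^ (k + 1) * ‖(x : Amb 𝕜) j'‖ := mul_le_mul_of_nonneg_left h3 (by positivity)
    _ = _ := mul_comm _ _

lemma summable_geo (C : ℝ) : Summable fun k : ℕ => C * ((1:ℝ) / 2) ^ (k + 1) := by
  refine Summable.mul_left _ ?_
  have := (summable_geometric_of_lt_one (by norm_num : (0:ℝ) ≤ 1 / 2) (by norm_num))
  exact (summable_nat_add_iff 1).2 this

lemma summable_terms (μ : 𝕜) (hμ : μ ≠ 0) (x : EE 𝕜) (n : ℤ) :
    Summable fun k : ℕ => (μ⁻¹) ^ (k + 1) * co (x : Amb 𝕜) (n - (k + 1)) := by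
  obtain ⟨j', h1, h2⟩ := exists_index μ hμ n.natAbs
  have hn : n ≤ (n.natAbs : ℕ) := by omega
  have hw := w_self_pos n
  refine Summable.of_norm_bounded
    (g := fun k => (w n.natAbs n)⁻¹ * ‖(x : Amb 𝕜) j'‖ * (1 / 2) ^ (k + 1)) (summable_geo _) fun k => ?_
  have h3 := term_bound μ hμ x h1 h2 hn k
  rw [mul_assoc, ← div_eq_inv_mul, le_div_iff₀ hw, mul_comm]
  exact h3

lemma bijective (μ : 𝕜) : Function.Bijective fun x : EE 𝕜 => x - μ • U x := by
  rcases eq_or_ne μ 0 with rfl | hμ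
  · have : (fun x : EE 𝕜 => x - (0 : 𝕜) • U x) = id := by
      funext x; simp
    rw [this]
    exact Function.bijective_id
  have hμ' : 0 < ‖μ‖ := norm_pos_iff.2 hμ
  constructor
  · -- injectivity
    intro x y hxy
    have h0 : ∀ n, co ((x - y : EE 𝕜) : Amb 𝕜) n = μ * co ((x - y : EE 𝕜) : Amb 𝕜) (n + 1) := by
      intro n
      have h1 : (x - y) - μ • U (x - y) = 0 := by
        rw [map_sub, smul_sub]
        have h2 : x - μ • U x = y - μ • U y := hxy
        have h3 : x - y - (μ • U x - μ • U y) = (x - μ • U x) - (y - μ • U y) := by abel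
        rw [h3, h2, sub_self]
      have h2 := congrArg (fun z : EE 𝕜 => co (z : Amb 𝕜) n) h1
      simp only [co_zero] at h2
      rw [co_sub, co_smul, co_U, sub_eq_zero] at h2
      exact h2
    set z : EE 𝕜 := x - y with hz
    have h4 : ∀ (k : ℕ) (n : ℤ), co (z : Amb 𝕜) (n - k) = μ ^ k * co (z : Amb 𝕜) n := by
      intro k
      induction k with
      | zero => intro n; simp
      | succ k ih =>
        intro n
        have h5 := h0 (n - (k + 1 : ℕ))
        have h6 : n - ((k + 1 : ℕ) : ℤ) + 1 = n - k := by push_cast; ring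
        rw [h6, ih] at h5
        rw [h5, pow_succ]; ring
    have h7 : ∀ n, co (z : Amb 𝕜) n = 0 := by
      intro n
      by_contra hne
      obtain ⟨j', h1, h2⟩ := exists_index μ hμ n.natAbs
      have hn : n ≤ (n.natAbs : ℕ) := by omega
      have hw := w_self_pos n
      -- `w * (j'+1)^(k+1) * |μ|^(k+1) * |z n| ≤ C`
      have h8 : ∀ k : ℕ, w n.natAbs n * ‖co (z : Amb 𝕜) n‖ * 2 ^ (k + 1) ≤ ‖(z : Amb 𝕜) j'‖ := by
        intro k
        have h9 := co_decay z h1 hn k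
        have h10 := h4 (k + 1) n
        push_cast at h10
        rw [h10, norm_mul, norm_pow] at h9
        refine le_trans ?_ h9
        have h11 : (2:ℝ) ^ (k + 1) ≤ ((j' : ℝ) + 1) ^ (k + 1) * ‖μ‖ ^ (k + 1) := by
          rw [← mul_pow, mul_comm ((j' : ℝ) + 1)]
          exact pow_le_pow_left₀ (by norm_num) h2 _
        have h12 : 0 ≤ w n.natAbs n * ‖co (z : Amb 𝕜) n‖ := mul_nonneg hw.le (norm_nonneg _)
        nlinarith [mul_le_mul_of_nonneg_left h11 h12]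
      have h13 : 0 < w n.natAbs n * ‖co (z : Amb 𝕜) n‖ := mul_pos hw (norm_pos_iff.2 hne)
      obtain ⟨k, hk⟩ := pow_unbounded_of_one_lt (‖(z : Amb 𝕜) j'‖ / (w n.natAbs n * ‖co (z : Amb 𝕜) n‖))
        (one_lt_two)
      rw [div_lt_iff₀ h13] at hk
      have h14 := h8 k
      have h15 : (2:ℝ) ^ k ≤ 2 ^ (k + 1) := pow_le_pow_right₀ (by norm_num) (Nat.le_succ k)
      nlinarith
    have h16 : z = 0 := ext_EE fun n => by rw [h7, co_zero]
    exact sub_eq_zero.1 h16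
  · -- surjectivity
    intro y
    set c : ℤ → 𝕜 := fun n => - ∑' k : ℕ, (μ⁻¹) ^ (k + 1) * co (y : Amb 𝕜) (n - (k + 1)) with hc
    obtain ⟨x, hx⟩ := exists_mk c (by
      intro j
      obtain ⟨j', h1, h2⟩ := exists_index μ hμ j
      refine ⟨‖(y : Amb 𝕜) j'‖ * 1, fun n => ?_⟩
      by_cases hn : n ≤ j
      · have hw : 0 < w j n := w_pos hn
        rw [hc]
        simp only [norm_neg]
        have h3 : ‖∑' k : ℕ, (μ⁻¹) ^ (k + 1) * co (y : Amb 𝕜) (n - (k + 1))‖ ≤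
            ∑' k : ℕ, (w j n)⁻¹ * ‖(y : Amb 𝕜) j'‖ * (1 / 2) ^ (k + 1) := by
          refine tsum_of_norm_bounded (summable_geo _).hasSum fun k => ?_
          have h3 := term_bound μ hμ y h1 h2 hn k
          rw [mul_assoc, ← div_eq_inv_mul, le_div_iff₀ hw, mul_comm]
          exact h3
        have h4 : ∑' k : ℕ, ((1:ℝ) / 2) ^ (k + 1) = 1 := by
          have h5 := tsum_geometric_two' 1
          have h6 : (fun k : ℕ => ((1:ℝ) / 2) ^ (k + 1)) = fun n : ℕ => (1:ℝ) / 2 / 2 ^ n := by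
            funext k
            rw [pow_succ, one_div_pow]; ring
          rw [h6]; exact h5
        rw [tsum_mul_left, h4, mul_one] at h3
        calc w j n * _ ≤ w j n * ((w j n)⁻¹ * ‖(y : Amb 𝕜) j'‖) :=
              mul_le_mul_of_nonneg_left h3 hw.le
          _ = ‖(y : Amb 𝕜) j'‖ * 1 := by rw [← mul_assoc, mul_inv_cancel₀ hw.ne', one_mul, mul_one]
      · have h0 : w j n = 0 := by unfold w; rw [if_neg hn]
        rw [h0, zero_mul]
        positivity)
    refine ⟨x, ext_EE fun n => ?_⟩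
    show co ((x - μ • U x : EE 𝕜) : Amb 𝕜) n = _
    rw [co_sub, co_smul, co_U, hx, hx]
    simp only [hc]
    have h1 : ∑' k : ℕ, (μ⁻¹) ^ (k + 1) * co (y : Amb 𝕜) (n + 1 - (k + 1)) =
        μ⁻¹ * co (y : Amb 𝕜) n + μ⁻¹ * ∑' k : ℕ, (μ⁻¹) ^ (k + 1) * co (y : Amb 𝕜) (n - (k + 1)) := by
      rw [(summable_terms μ hμ y (n + 1)).tsum_eq_zero_add, ← tsum_mul_left]
      congr 1
      · simp
      · refine tsum_congr fun k => ?_
        have : n + 1 - (((k + 1 : ℕ) : ℤ) + 1) = n - ((k : ℤ) + 1) := by push_cast; ring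
        rw [this, pow_succ]
        ring
    rw [h1]
    field_simp
    ring

/-- the element with coordinates `n!` -/
lemma exists_fact : ∃ x : EE 𝕜, ∀ k : ℕ, co (x : Amb 𝕜) k = (k.factorial : 𝕜) := by
  obtain ⟨x, hx⟩ := exists_mk (𝕜 := 𝕜) (fun n : ℤ => if 0 ≤ n then (n.toNat.factorial : 𝕜) else 0) (by
    intro j
    have hfin : (Set.Icc (0 : ℤ) j).Finite := Set.finite_Icc _ _
    obtain ⟨C, hC⟩ := (hfin.image (fun n => w j n *
      ‖(if 0 ≤ n then (n.toNat.factorial : 𝕜) else 0)‖)).bddAbove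
    refine ⟨max C 0, fun n => ?_⟩
    by_cases hn : n ∈ Set.Icc (0 : ℤ) j
    · exact (hC ⟨n, hn, rfl⟩).trans (le_max_left _ _)
    · refine le_trans (le_of_eq ?_) (le_max_right _ _)
      by_cases h0 : 0 ≤ n
      · have h1 : ¬ n ≤ j := fun h => hn ⟨h0, h⟩
        have h2 : w j n = 0 := by unfold w; rw [if_neg h1]
        rw [h2, zero_mul]
      · rw [if_neg h0, norm_zero, mul_zero])
  refine ⟨x, fun k => ?_⟩
  rw [hx]
  simp

/-- For `𝕜 = ℝ` and for `𝕜 = ℂ` there are a Fréchet space `E` and a continuous linear operator `U`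
on it such that `I - μ U` is a bijection of `E` for every scalar `μ`, and a vector `x` such that for
every `μ ≠ 0` the Neumann series `∑ μᵏ Uᵏ x` does not converge. -/
theorem result (𝕜 : Type) [RCLike 𝕜] :
    ∃ (E : Type) (_ : AddCommGroup E) (_ : Module 𝕜 E) (_ : UniformSpace E) (U : E →L[𝕜] E),
      IsFrechetSpace 𝕜 E ∧ (∀ μ : 𝕜, Function.Bijective fun x => x - μ • U x) ∧
      ∃ x : E, ∀ μ : 𝕜, μ ≠ 0 → ∀ s : E, ¬ NeumannConvergesTo U μ x s := by
  refine ⟨EE 𝕜, inferInstance, inferInstance, inferInstance, U, isFrechet 𝕜, bijective, ?_⟩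
  obtain ⟨x, hx⟩ := exists_fact (𝕜 := 𝕜)
  refine ⟨x, fun μ hμ s hs => ?_⟩
  have hcont : Continuous fun y : EE 𝕜 => co (y : Amb 𝕜) 0 :=
    (continuous_co 0).comp continuous_subtype_val
  have h1 : Tendsto (fun N : ℕ => ∑ k ∈ Finset.range N, μ ^ k * (k.factorial : 𝕜)) atTop
      (𝓝 (co (s : Amb 𝕜) 0)) := by
    have h2 := (hcont.tendsto s).comp hs
    refine h2.congr fun N => ?_
    show co ((∑ k ∈ Finset.range N, μ ^ k • (U^[k]) x : EE 𝕜) : Amb 𝕜) 0 = _
    rw [co_sum]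
    refine Finset.sum_congr rfl fun k _ => ?_
    rw [co_smul, co_iterate, zero_add, hx]
  have h3 : Tendsto (fun N : ℕ => μ ^ N * (N.factorial : 𝕜)) atTop (𝓝 0) := by
    have h4 := ((tendsto_add_atTop_iff_nat 1).2 h1).sub h1
    rw [sub_self] at h4
    refine h4.congr fun N => ?_
    rw [Finset.sum_range_succ, add_sub_cancel_left]
  have h5 : Tendsto (fun N : ℕ => ‖μ‖⁻¹ ^ N / (N.factorial : ℝ)) atTop (𝓝 0) :=
    FloorSemiring.tendsto_pow_div_factorial_atTop _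
  have h6 := h3.norm.mul h5
  rw [norm_zero, zero_mul] at h6
  have h7 : (fun N : ℕ => ‖μ ^ N * (N.factorial : 𝕜)‖ * (‖μ‖⁻¹ ^ N / (N.factorial : ℝ))) =
      fun _ => (1 : ℝ) := by
    funext N
    rw [norm_mul, norm_pow, RCLike.norm_natCast]
    have h8 : ‖μ‖ ≠ 0 := norm_ne_zero_iff.2 hμ
    have h9 : (N.factorial : ℝ) ≠ 0 := by positivity
    rw [inv_pow]
    field_simp
  rw [h7] at h6
  exact one_ne_zero (tendsto_nhds_unique tendsto_const_nhds h6)

end Pool.Agent.Results.MP_18d2fb_an.NeumannDiverges
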